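import Pool.Agent.SawM2.FinB
import Pool.Agent.Bubble.Paths

/-! A bounded amplitude of the number of self-avoiding walks forces a positive proportion of them
to be spread out. -/

set_option autoImplicit false

namespace Pool.Agent.Results.MP_794e6e_pr.BoundedAmplitude

open Pool.Agent.SubBall Pool.Agent.Bubble
open Filter

/-- Two points of `ℤ^d` are neighbours if their difference is plus or minus a standard unit
vector. -/
def Nbr {d : ℕ} (u v : Fin d → ℤ) : Prop :=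
  ∃ i : Fin d, v - u = Pi.single i 1 ∨ v - u = - Pi.single i 1

/-- The self-avoiding walks `(ω 0, …, ω N)` of length `N` in `ℤ^d` with `ω 0 = 0`. -/
def SAW (d N : ℕ) : Set (Fin (N + 1) → (Fin d → ℤ)) :=
  {ω | ω 0 = 0 ∧ (∀ j : Fin N, Nbr (ω j.castSucc) (ω j.succ)) ∧ Function.Injective ω}

/-- `c d N`: the number of self-avoiding walks of length `N` from the origin. -/
noncomputable def c (d N : ℕ) : ℕ := (SAW d N).ncard

/-- the path of a sequence of steps -/
def path (m N : ℕ) (w : ℕ → St m) : Fin (N + 1) → (Fin (m + 2) → ℤ) :=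
  fun j => pos (stv m) w j

theorem stv_inj (m : ℕ) : Function.Injective (stv m) := by
  rintro ⟨i, b⟩ ⟨j, b'⟩ h
  have h1 := congrFun h i
  by_cases hij : i = j
  · subst hij
    cases b <;> cases b' <;> simp [stv] at h1 ⊢
  · cases b <;> cases b' <;> simp [stv, hij] at h1

theorem nbr_iff {m : ℕ} {u v : Fin (m + 2) → ℤ} : Nbr u v ↔ ∃ s : St m, stv m s = v - u := by
  constructor
  · rintro ⟨i, h | h⟩
    · exact ⟨(i, true), by rw [h]; simp [stv]⟩
    · exact ⟨(i, false), by rw [h]; simp [stv]⟩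
  · rintro ⟨⟨i, b⟩, h⟩
    refine ⟨i, ?_⟩
    rw [← h]
    cases b <;> simp [stv]

theorem path_mem {m N : ℕ} {w : ℕ → St m} (hw : w ∈ saws (stv m) N) :
    path m N w ∈ SAW (m + 2) N := by
  have h := (mem_saws.1 hw).2
  refine ⟨?_, ?_, ?_⟩
  · simp [path]
  · intro j
    rw [nbr_iff]
    refine ⟨w j, ?_⟩
    simp only [path, Fin.val_succ, Fin.val_castSucc]
    rw [pos_succ]
    abel
  · intro i j hij
    simp only [path] at hij
    rcases lt_trichotomy (i : ℕ) (j : ℕ) with h1 | h1 | h1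
    · exact absurd hij (h i j h1 (Nat.lt_succ_iff.1 j.2))
    · exact Fin.ext h1
    · exact absurd hij.symm (h j i h1 (Nat.lt_succ_iff.1 i.2))

theorem path_inj {m N : ℕ} {w w' : ℕ → St m} (hw : w ∈ saws (stv m) N)
    (hw' : w' ∈ saws (stv m) N) (h : path m N w = path m N w') : w = w' := by
  have hp : ∀ j ≤ N, pos (stv m) w j = pos (stv m) w' j := by
    intro j hj
    have := congrFun h ⟨j, Nat.lt_succ_iff.2 hj⟩
    simpa [path] using this
  funext a
  by_cases ha : a < N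
  · apply stv_inj m
    have h1 := hp (a + 1) (by omega)
    rw [pos_succ, pos_succ, hp a (by omega)] at h1
    exact add_left_cancel h1
  · rw [(mem_saws.1 hw).1 a (by omega), (mem_saws.1 hw').1 a (by omega)]

theorem path_surj {m N : ℕ} {ω : Fin (N + 1) → (Fin (m + 2) → ℤ)} (hω : ω ∈ SAW (m + 2) N) :
    ∃ w ∈ saws (stv m) N, path m N w = ω := by
  obtain ⟨h0, h1, h2⟩ := hω
  have h3 : ∀ j : Fin N, ∃ s : St m, stv m s = ω j.succ - ω j.castSucc := fun j =>
    nbr_iff.1 (h1 j)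
  choose s hs using h3
  have hp : ∀ j, ∀ hj : j ≤ N, pos (stv m) (ext0 N s) j = ω ⟨j, Nat.lt_succ_iff.2 hj⟩ := by
    intro j
    induction j with
    | zero =>
      intro _
      rw [pos_zero]
      exact h0.symm
    | succ j ih =>
      intro hj
      have hjN : j < N := by omega
      rw [pos_succ, ih (by omega)]
      have h4 : ext0 N s j = s ⟨j, hjN⟩ := by simp [ext0, hjN]
      rw [h4, hs ⟨j, hjN⟩]
      simp only [Fin.succ_mk, Fin.castSucc_mk]
      abel
  refine ⟨ext0 N s, ?_, ?_⟩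
  · rw [mem_saws]
    refine ⟨?_, ?_⟩
    · intro a ha
      simp [ext0, not_lt.2 ha]
    · intro i j hij hj heq
      rw [hp i (by omega), hp j hj] at heq
      have h4 := h2 heq
      rw [Fin.mk.injEq] at h4
      omega
  · funext j
    exact hp j (Nat.lt_succ_iff.1 j.2)

open Classical in
theorem SAW_eq (m N : ℕ) :
    SAW (m + 2) N = (((saws (stv m) N).image (path m N) : Finset _) :
      Set (Fin (N + 1) → (Fin (m + 2) → ℤ))) := by
  ext ω
  rw [Finset.coe_image]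
  constructor
  · intro h
    obtain ⟨w, hw, hw'⟩ := path_surj h
    exact ⟨w, hw, hw'⟩
  · rintro ⟨w, hw, rfl⟩
    exact path_mem hw

theorem c_eq (m n : ℕ) : c (m + 2) n = (saws (stv m) n).card := by
  classical
  unfold c
  rw [SAW_eq, Set.ncard_coe_finset]
  exact Finset.card_image_of_injOn (fun w hw w' hw' h => path_inj hw hw' h)

open Classical in
theorem large_eq (m n : ℕ) (t : ℝ) :
    {ω ∈ SAW (m + 2) n | t ≤ ∑ i : Fin (m + 2), ((ω (Fin.last n) i : ℤ) : ℝ) ^ 2}.ncard =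
      ((saws (stv m) n).filter (fun w => t ≤ ∑ i : Fin (m + 2),
        ((pos (stv m) w n i : ℤ) : ℝ) ^ 2)).card := by
  have h1 : {ω ∈ SAW (m + 2) n | t ≤ ∑ i : Fin (m + 2), ((ω (Fin.last n) i : ℤ) : ℝ) ^ 2} =
      ((((saws (stv m) n).filter (fun w => t ≤ ∑ i : Fin (m + 2),
        ((pos (stv m) w n i : ℤ) : ℝ) ^ 2)).image (path m n) : Finset _) :
        Set (Fin (n + 1) → (Fin (m + 2) → ℤ))) := by
    ext ω
    rw [Finset.coe_image]
    constructor
    · rintro ⟨h, hx⟩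
      obtain ⟨w, hw, hw'⟩ := path_surj h
      refine ⟨w, ?_, hw'⟩
      rw [Finset.mem_coe, Finset.mem_filter]
      refine ⟨hw, ?_⟩
      rw [← hw'] at hx
      simpa [path] using hx
    · rintro ⟨w, hw, rfl⟩
      rw [Finset.mem_coe, Finset.mem_filter] at hw
      refine ⟨path_mem hw.1, ?_⟩
      simpa [path] using hw.2
  rw [h1, Set.ncard_coe_finset]
  exact Finset.card_image_of_injOn
    (fun w hw w' hw' h => path_inj (Finset.mem_filter.1 hw).1 (Finset.mem_filter.1 hw').1 h)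

/-- **Main result.** Let `d ≥ 2` and let `μ` be the limit of `c d n ^ (1 / n)`. Suppose that
`c d n ≤ A * μ ^ n` for all `n`. Then there is `η > 0` such that, for every `ε > 0` and all large
`n`, at least `η * c d n` self-avoiding walks of length `n` satisfy
`|ω n| ^ 2 ≥ n ^ (2 * min (2 / d) ((d + 1) / (2 * d)) - ε)`. -/
theorem result (d : ℕ) (hd : 2 ≤ d) : ∃ μ : ℝ, 0 < μ ∧
    Tendsto (fun n : ℕ => (c d n : ℝ) ^ (1 / (n : ℝ))) atTop (nhds μ) ∧
    ∀ A : ℝ, (∀ n : ℕ, (c d n : ℝ) ≤ A * μ ^ n) →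
      ∃ η : ℝ, 0 < η ∧ ∀ ε : ℝ, 0 < ε → ∀ᶠ n : ℕ in atTop,
        η * c d n ≤
          ({ω ∈ SAW d n | (n : ℝ) ^ (2 * min (2 / (d : ℝ)) (((d : ℝ) + 1) / (2 * d)) - ε) ≤
            ∑ i : Fin d, ((ω (Fin.last n) i : ℤ) : ℝ) ^ 2}.ncard : ℝ) := by
  classical
  obtain ⟨m, rfl⟩ : ∃ m, d = m + 2 := ⟨d - 2, by omega⟩
  obtain ⟨μ, hμ, h1, -, h3⟩ := exists_mu m
  refine ⟨μ, hμ, ?_, ?_⟩
  · refine h3.congr (fun n => ?_)
    rw [c_eq]
  · intro A hA
    obtain ⟨η, hη, hw⟩ := SawM2.fin_words m hμ h1 (A := A) (fun n => by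
      have h4 := hA n
      rw [c_eq] at h4
      unfold an
      rwa [div_le_iff₀ (pow_pos hμ n)])
    refine ⟨η, hη, fun ε hε => ?_⟩
    have hd0 : (0 : ℝ) < ((m + 2 : ℕ) : ℝ) := by positivity
    obtain ⟨ν₀, hν₀⟩ : ∃ x : ℝ, x = min (2 / ((m + 2 : ℕ) : ℝ))
      ((((m + 2 : ℕ) : ℝ) + 1) / (2 * ((m + 2 : ℕ) : ℝ))) := ⟨_, rfl⟩
    rw [← hν₀]
    have hν₀0 : 0 < ν₀ := by
      rw [hν₀]
      exact lt_min (by positivity) (by positivity)
    have hmin0 : 0 < min (ε / 2) (ν₀ / 2) := lt_min (by positivity) (by positivity)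
    have hν : ν₀ - min (ε / 2) (ν₀ / 2) < ν₀ := by linarith
    have hν' : 0 < ν₀ - min (ε / 2) (ν₀ / 2) := by
      have := min_le_right (ε / 2) (ν₀ / 2)
      linarith
    have hlt1 : ν₀ - min (ε / 2) (ν₀ / 2) < 2 / ((m + 2 : ℕ) : ℝ) := by
      refine hν.trans_le ?_
      rw [hν₀]
      exact min_le_left _ _
    have hlt2 : ν₀ - min (ε / 2) (ν₀ / 2) <
        (((m + 2 : ℕ) : ℝ) + 1) / (2 * ((m + 2 : ℕ) : ℝ)) := by
      refine hν.trans_le ?_
      rw [hν₀]
      exact min_le_right _ _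
    filter_upwards [hw _ hν' hlt1 hlt2, eventually_ge_atTop 1] with n hn hn1
    obtain ⟨i, hi⟩ := hn
    have hnr : (1 : ℝ) ≤ n := by exact_mod_cast hn1
    rw [c_eq, large_eq]
    refine hi.trans ?_
    have hsub : ((saws (stv m) n).filter fun w =>
        (n : ℝ) ^ (ν₀ - min (ε / 2) (ν₀ / 2)) < |((pos (stv m) w n i : ℤ) : ℝ)|) ⊆
        (saws (stv m) n).filter (fun w => (n : ℝ) ^ (2 * ν₀ - ε) ≤ ∑ i : Fin (m + 2),
          ((pos (stv m) w n i : ℤ) : ℝ) ^ 2) := by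
      intro w hw2
      rw [Finset.mem_filter] at hw2 ⊢
      refine ⟨hw2.1, ?_⟩
      have h5 : (n : ℝ) ^ (2 * ν₀ - ε) ≤ ((n : ℝ) ^ (ν₀ - min (ε / 2) (ν₀ / 2))) ^ 2 := by
        rw [← Real.rpow_natCast, ← Real.rpow_mul (by linarith)]
        refine Real.rpow_le_rpow_of_exponent_le hnr ?_
        have := min_le_left (ε / 2) (ν₀ / 2)
        push_cast
        linarith
      have h6 : ((n : ℝ) ^ (ν₀ - min (ε / 2) (ν₀ / 2))) ^ 2 ≤ ((pos (stv m) w n i : ℤ) : ℝ) ^ 2 := by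
        rw [← sq_abs ((pos (stv m) w n i : ℤ) : ℝ)]
        exact pow_le_pow_left₀ (by positivity) hw2.2.le 2
      exact (h5.trans h6).trans (Finset.single_le_sum
        (f := fun j => ((pos (stv m) w n j : ℤ) : ℝ) ^ 2) (fun j _ => sq_nonneg _)
        (Finset.mem_univ i))
    exact_mod_cast Finset.card_le_card hsub

end Pool.Agent.Results.MP_794e6e_pr.BoundedAmplitude
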