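import Pool.Agent.Bubble.Paths

/-! The critical bubble diagram of the self-avoiding walk on `ℤ³` is infinite. -/

namespace Pool.Agent.Results.MP_794e6e_pr.BubbleDiverges

open Pool.Agent.SubBall Pool.Agent.Bubble
open scoped ENNReal

/-- Two points of `ℤ³` are neighbours if their difference is plus or minus a standard unit
vector. -/
def Nbr (u v : Fin 3 → ℤ) : Prop :=
  ∃ i : Fin 3, v - u = Pi.single i 1 ∨ v - u = - Pi.single i 1

/-- The self-avoiding walks `(ω 0, …, ω n)` of length `n` in `ℤ³` with `ω 0 = 0`. -/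
def SAW (n : ℕ) : Set (Fin (n + 1) → (Fin 3 → ℤ)) :=
  {ω | ω 0 = 0 ∧ (∀ j : Fin n, Nbr (ω j.castSucc) (ω j.succ)) ∧ Function.Injective ω}

/-- `c n`: the number of self-avoiding walks of length `n` from the origin. -/
noncomputable def c (n : ℕ) : ℕ := (SAW n).ncard

/-- `cx n x`: the number of self-avoiding walks of length `n` from the origin to `x`. -/
noncomputable def cx (n : ℕ) (x : Fin 3 → ℤ) : ℕ := {ω ∈ SAW n | ω (Fin.last n) = x}.ncard

/-- The two-point function `G_z(x) = ∑ₙ cₙ(x) zⁿ`, with values in `[0, ∞]`. -/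
noncomputable def G (z : ℝ) (x : Fin 3 → ℤ) : ℝ≥0∞ :=
  ∑' n : ℕ, ENNReal.ofReal ((cx n x : ℝ) * z ^ n)

/-- the path of a sequence of steps -/
def path (n : ℕ) (w : ℕ → St 1) : Fin (n + 1) → (Fin 3 → ℤ) := fun j => pos (stv 1) w j

theorem stv_inj : Function.Injective (stv 1) := by
  rintro ⟨i, b⟩ ⟨j, b'⟩ h
  have h1 := congrFun h i
  by_cases hij : i = j
  · subst hij
    cases b <;> cases b' <;> simp [stv] at h1 ⊢
  · cases b <;> cases b' <;> simp [stv, hij] at h1

theorem nbr_iff {u v : Fin 3 → ℤ} : Nbr u v ↔ ∃ s : St 1, stv 1 s = v - u := by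
  constructor
  · rintro ⟨i, h | h⟩
    · exact ⟨(i, true), by rw [h]; simp [stv]⟩
    · exact ⟨(i, false), by rw [h]; simp [stv]⟩
  · rintro ⟨⟨i, b⟩, h⟩
    refine ⟨i, ?_⟩
    rw [← h]
    cases b <;> simp [stv]

theorem path_mem {n : ℕ} {w : ℕ → St 1} (hw : w ∈ saws (stv 1) n) : path n w ∈ SAW n := by
  have h := (mem_saws.1 hw).2
  refine ⟨?_, ?_, ?_⟩
  · simp [path]
  · intro j
    rw [nbr_iff]
    refine ⟨w j, ?_⟩
    simp only [path, Fin.val_succ, Fin.val_castSucc]
    rw [pos_succ]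
    abel
  · intro i j hij
    simp only [path] at hij
    rcases lt_trichotomy (i : ℕ) (j : ℕ) with h1 | h1 | h1
    · exact absurd hij (h i j h1 (Nat.lt_succ_iff.1 j.2))
    · exact Fin.ext h1
    · exact absurd hij.symm (h j i h1 (Nat.lt_succ_iff.1 i.2))

theorem path_inj {n : ℕ} {w w' : ℕ → St 1} (hw : w ∈ saws (stv 1) n)
    (hw' : w' ∈ saws (stv 1) n) (h : path n w = path n w') : w = w' := by
  have hp : ∀ j ≤ n, pos (stv 1) w j = pos (stv 1) w' j := by
    intro j hj
    have := congrFun h ⟨j, Nat.lt_succ_iff.2 hj⟩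
    simpa [path] using this
  funext a
  by_cases ha : a < n
  · apply stv_inj
    have h1 := hp (a + 1) (by omega)
    rw [pos_succ, pos_succ, hp a (by omega)] at h1
    exact add_left_cancel h1
  · rw [(mem_saws.1 hw).1 a (by omega), (mem_saws.1 hw').1 a (by omega)]

theorem path_surj {n : ℕ} {ω : Fin (n + 1) → (Fin 3 → ℤ)} (hω : ω ∈ SAW n) :
    ∃ w ∈ saws (stv 1) n, path n w = ω := by
  obtain ⟨h0, h1, h2⟩ := hω
  have h3 : ∀ j : Fin n, ∃ s : St 1, stv 1 s = ω j.succ - ω j.castSucc := fun j =>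
    nbr_iff.1 (h1 j)
  choose s hs using h3
  have hp : ∀ j, ∀ hj : j ≤ n, pos (stv 1) (ext0 n s) j = ω ⟨j, Nat.lt_succ_iff.2 hj⟩ := by
    intro j
    induction j with
    | zero =>
      intro _
      rw [pos_zero]
      exact h0.symm
    | succ j ih =>
      intro hj
      have hjN : j < n := by omega
      rw [pos_succ, ih (by omega)]
      have h4 : ext0 n s j = s ⟨j, hjN⟩ := by simp [ext0, hjN]
      rw [h4, hs ⟨j, hjN⟩]
      simp only [Fin.succ_mk, Fin.castSucc_mk]
      abel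
  refine ⟨ext0 n s, ?_, ?_⟩
  · rw [mem_saws]
    refine ⟨?_, ?_⟩
    · intro a ha
      simp [ext0, not_lt.2 ha]
    · intro i j hij hj heq
      rw [hp i (by omega), hp j hj] at heq
      have h4 := h2 heq
      rw [Fin.mk.injEq] at h4
      omega
  · funext j
    exact hp j (Nat.lt_succ_iff.1 j.2)

open Classical in
theorem SAW_eq (n : ℕ) : SAW n = (((saws (stv 1) n).image (path n) : Finset _) :
      Set (Fin (n + 1) → (Fin 3 → ℤ))) := by
  ext ω
  rw [Finset.coe_image]
  constructor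
  · intro h
    obtain ⟨w, hw, hw'⟩ := path_surj h
    exact ⟨w, hw, hw'⟩
  · rintro ⟨w, hw, rfl⟩
    exact path_mem hw

theorem c_eq (n : ℕ) : c n = (saws (stv 1) n).card := by
  classical
  unfold c
  rw [SAW_eq, Set.ncard_coe_finset]
  exact Finset.card_image_of_injOn (fun w hw w' hw' h => path_inj hw hw' h)

theorem cx_eq (n : ℕ) (x : Fin 3 → ℤ) : cx n x = cnx (stv 1) n x := by
  classical
  unfold cx cnx
  have h1 : {ω ∈ SAW n | ω (Fin.last n) = x} =
      ((((saws (stv 1) n).filter (fun w => pos (stv 1) w n = x)).image (path n) : Finset _) :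
        Set (Fin (n + 1) → (Fin 3 → ℤ))) := by
    ext ω
    rw [Finset.coe_image]
    constructor
    · rintro ⟨h, hx⟩
      obtain ⟨w, hw, hw'⟩ := path_surj h
      refine ⟨w, ?_, hw'⟩
      rw [Finset.mem_coe, Finset.mem_filter]
      refine ⟨hw, ?_⟩
      rw [← hw'] at hx
      simpa [path] using hx
    · rintro ⟨w, hw, rfl⟩
      rw [Finset.mem_coe, Finset.mem_filter] at hw
      refine ⟨path_mem hw.1, ?_⟩
      simpa [path] using hw.2
  rw [h1, Set.ncard_coe_finset]
  have h2 := Finset.card_image_of_injOn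
    (s := (saws (stv 1) n).filter (fun w => pos (stv 1) w n = x)) (f := path n)
    (fun w hw w' hw' h => path_inj (Finset.mem_filter.1 hw).1 (Finset.mem_filter.1 hw').1 h)
  rw [h2]
  congr 1
  ext w
  simp only [Finset.mem_filter]

/-- **Main result.** Let `μ` be the limit of `c n ^ (1 / n)` and `z_c = 1 / μ` the critical
point of the self-avoiding walk on `ℤ³`. The critical bubble diagram `∑ₓ G_{z_c}(x)²` is
infinite. -/
theorem result : ∃ μ : ℝ, 0 < μ ∧
    Filter.Tendsto (fun n : ℕ => (c n : ℝ) ^ (1 / (n : ℝ))) Filter.atTop (nhds μ) ∧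
    ∑' x : Fin 3 → ℤ, (G (1 / μ) x) ^ 2 = ⊤ := by
  obtain ⟨μ, hμ, h1, h2, h3⟩ := exists_mu 1
  refine ⟨μ, hμ, ?_, ?_⟩
  · refine h3.congr (fun n => ?_)
    rw [c_eq]
  · have h4 := bubble_top hμ h1 h2
    refine Eq.trans ?_ h4
    refine tsum_congr (fun x => ?_)
    congr 1
    unfold G
    refine tsum_congr (fun n => ?_)
    rw [cx_eq, one_div, inv_pow, div_eq_mul_inv]

end Pool.Agent.Results.MP_794e6e_pr.BubbleDiverges
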