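import Pool.Agent.Taw.Brg
import Pool.Agent.Trp.Lat
import Pool.Agent.Esc.Blk
import Pool.Agent.Esc.Main
import Pool.Agent.Am3.Amp
import Pool.Agent.Am3.Mu

/-! The amplitude of the number of self-avoiding walks is at least 2 on `ℤ²`, 18/μ on `ℤ³` and 16/μ
on `ℤ⁴`, at almost all lengths up to infinitely many `N`. Reason: if it is bounded then time
reversal is spontaneously broken: the walks with an arrow of time and those with the reversed arrow
weigh at least 1 each, the walks with some arrow weigh at least 2, 12/μ, 16/μ together; on `ℤ³` the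
walks without an arrow weigh, at most scales, 6/μ. If it is unbounded, a set of lengths of positive
lower density at which it is small would bound it everywhere (Schnirelmann). -/

set_option autoImplicit false

namespace Pool.Agent.Results.MP_794e6e_pr.TimeArrow

open Pool.Agent.Bub4 Pool.Agent.SawM2 Pool.Agent.Taw
open Pool.Agent.SubBall (St stv)
open Filter

/-- Two points of `ℤ^d` are neighbours if their difference is plus or minus a standard unit
vector. -/
def Nbr {d : ℕ} (u v : Fin d → ℤ) : Prop :=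
  ∃ i : Fin d, v - u = Pi.single i 1 ∨ v - u = - Pi.single i 1

/-- The self-avoiding walks `(ω 0, …, ω n)` of length `n` in `ℤ^d` with `ω 0 = 0`. -/
def SAW (d n : ℕ) : Set (Fin (n + 1) → (Fin d → ℤ)) :=
  {ω | ω 0 = 0 ∧ (∀ j : Fin n, Nbr (ω j.castSucc) (ω j.succ)) ∧ Function.Injective ω}

/-- `c d n`: the number of self-avoiding walks of length `n` from the origin. -/
noncomputable def c (d n : ℕ) : ℕ := (SAW d n).ncard

/-- `rev γ`: the path `γ` traversed backwards. -/
def rev {d k : ℕ} (γ : Fin (k + 1) → (Fin d → ℤ)) : Fin (k + 1) → (Fin d → ℤ) :=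
  fun j => γ (Fin.rev j)

/-- `occ γ ω i L`: the number of places at which `ω` runs through a translate of `γ` within the block
of the `L` steps of `ω` that follow the place `i`. -/
noncomputable def occ {d k n : ℕ} (γ : Fin (k + 1) → (Fin d → ℤ))
    (ω : Fin (n + 1) → (Fin d → ℤ)) (i L : ℕ) : ℕ :=
  {a : ℕ | i ≤ a ∧ a + k ≤ i + L ∧ ∃ h : a + k ≤ n, ∀ j : Fin (k + 1),
    ω ⟨a + j, by omega⟩ - ω ⟨a, by omega⟩ = γ j - γ 0}.ncard

/-- `Neutral k δ ω i L`: the block of the `L` steps of `ω` that follow the place `i` runs through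
every self-avoiding walk `γ` of length `k` and through `γ` traversed backwards equally often, up
to less than `δ * L`. -/
def Neutral {d n : ℕ} (k : ℕ) (δ : ℝ) (ω : Fin (n + 1) → (Fin d → ℤ)) (i L : ℕ) : Prop :=
  ∀ γ ∈ SAW d k, |(occ γ ω i L : ℝ) - occ (rev γ) ω i L| < δ * L

/-- the number of occurrences in the whole walk -/
noncomputable def occ0 {d k n : ℕ} (γ : Fin (k + 1) → (Fin d → ℤ))
    (ω : Fin (n + 1) → (Fin d → ℤ)) : ℕ :=
  {i : ℕ | ∃ h : i + k ≤ n, ∀ j : Fin (k + 1),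
    ω ⟨i + j, by omega⟩ - ω ⟨i, by omega⟩ = γ j - γ 0}.ncard

theorem occ_zero {d k n : ℕ} (γ : Fin (k + 1) → (Fin d → ℤ)) (ω : Fin (n + 1) → (Fin d → ℤ)) :
    occ γ ω 0 n = occ0 γ ω := by
  unfold occ occ0
  congr 1
  ext a
  rw [Set.mem_ofPred_eq, Set.mem_ofPred_eq]
  exact ⟨fun h => h.2.2, fun h => ⟨Nat.zero_le a, by rw [Nat.zero_add]; exact h.1, h⟩⟩

theorem nbr_iff {m : ℕ} {u v : Fin (m + 2) → ℤ} : Nbr u v ↔ ∃ s : St m, stv m s = v - u := by
  constructor
  · rintro ⟨i, h | h⟩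
    · exact ⟨(i, true), by rw [h]; simp [stv]⟩
    · exact ⟨(i, false), by rw [h]; simp [stv]⟩
  · rintro ⟨⟨i, b⟩, h⟩
    refine ⟨i, ?_⟩
    rw [← h]
    cases b <;> simp [stv]

variable {m : ℕ} {μ : ℝ} (hμ : 0 < μ)

theorem pl_mem {n : ℕ} {l : List (St m)} (hl : l.length = n) (hs : (lat m hμ).Saw l) :
    pl (lat m hμ) n l ∈ SAW (m + 2) n := by
  refine ⟨by simp [pl], ?_, ?_⟩
  · intro j
    rw [nbr_iff]
    have hj : (j : ℕ) < l.length := by rw [hl]; exact j.2
    refine ⟨l[(j : ℕ)], ?_⟩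
    simp only [pl, Fin.val_succ, Fin.val_castSucc]
    rw [List.take_add_one, Sys.sm_append, List.getElem?_eq_getElem hj]
    simp only [Option.toList_some, Sys.sm_cons, Sys.sm_nil, add_zero, add_sub_cancel_left]
    rfl
  · intro i j hij
    have h1 := (saw_iff_take (Y := lat m hμ) l).1 hs
    rcases lt_trichotomy (i : ℕ) (j : ℕ) with h | h | h
    · exact absurd hij (h1 i j h (by omega))
    · exact Fin.ext h
    · exact absurd hij.symm (h1 j i h (by omega))

theorem pl_surj {n : ℕ} {ω : Fin (n + 1) → (Fin (m + 2) → ℤ)} (hω : ω ∈ SAW (m + 2) n) :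
    ∃ l : List (St m), l.length = n ∧ (lat m hμ).Saw l ∧ pl (lat m hμ) n l = ω := by
  obtain ⟨h0, h1, h2⟩ := hω
  have h3 : ∀ j : Fin n, ∃ s : St m, stv m s = ω j.succ - ω j.castSucc := fun j =>
    nbr_iff.1 (h1 j)
  choose s hs using h3
  have hp : ∀ j, ∀ hj : j ≤ n, (lat m hμ).sm ((List.ofFn s).take j) = ω ⟨j, by omega⟩ := by
    intro j
    induction j with
    | zero =>
      intro _
      simp only [List.take_zero, Sys.sm_nil]
      exact h0.symm
    | succ j ih =>
      intro hj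
      have hjn : j < (List.ofFn s).length := by simp; omega
      rw [List.take_add_one, Sys.sm_append, ih (by omega), List.getElem?_eq_getElem hjn]
      simp only [Option.toList_some, Sys.sm_cons, Sys.sm_nil, add_zero, List.getElem_ofFn]
      have h4 := hs ⟨j, by omega⟩
      simp only [Fin.succ_mk, Fin.castSucc_mk] at h4
      show _ + stv m (s ⟨j, _⟩) = _
      rw [h4]
      abel
  refine ⟨List.ofFn s, by simp, ?_, ?_⟩
  · rw [saw_iff_take (Y := lat m hμ)]
    intro i j hij hj heq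
    have hj' : j ≤ n := by simpa using hj
    rw [hp i (by omega), hp j hj'] at heq
    have h4 := h2 heq
    rw [Fin.mk.injEq] at h4
    omega
  · funext j
    exact hp j (by omega)

/-- counting walks by words -/
theorem E_card (n : ℕ) (P : (Fin (n + 1) → (Fin (m + 2) → ℤ)) → Prop) :
    ((lat m hμ).E n fun w => (lat m hμ).sv w * ind (P (pl (lat m hμ) n w))) =
      ({ω ∈ SAW (m + 2) n | P ω}.ncard : ℝ) / μ ^ n := by
  classical
  rw [(lat m hμ).E_eq]
  have h1 : {ω ∈ SAW (m + 2) n | P ω} =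
      ((((Finset.univ : Finset (Fin n → St m)).filter fun w =>
        (lat m hμ).Saw (List.ofFn w) ∧ P (pl (lat m hμ) n (List.ofFn w))).image
          fun w => pl (lat m hμ) n (List.ofFn w) : Finset _) : Set _) := by
    ext ω
    rw [Finset.coe_image]
    constructor
    · rintro ⟨h, hP⟩
      obtain ⟨l, hl, hs, hl'⟩ := pl_surj hμ h
      subst hl
      refine ⟨l.get, ?_, ?_⟩
      · rw [Finset.mem_coe, Finset.mem_filter, List.ofFn_get, hl']
        exact ⟨Finset.mem_univ _, hs, hP⟩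
      · simp only [List.ofFn_get]
        exact hl'
    · rintro ⟨w, hw, rfl⟩
      rw [Finset.mem_coe, Finset.mem_filter] at hw
      exact ⟨pl_mem hμ (by simp) hw.2.1, hw.2.2⟩
  rw [h1, Set.ncard_coe_finset, Finset.card_image_of_injOn, Finset.card_filter]
  · rw [Nat.cast_sum, Finset.sum_div]
    refine Finset.sum_congr rfl fun w _ => ?_
    have hz : (lat m hμ).z = μ⁻¹ := rfl
    rw [hz, inv_pow]
    by_cases hs : (lat m hμ).Saw (List.ofFn w)
    · by_cases hP : P (pl (lat m hμ) n (List.ofFn w))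
      · rw [(lat m hμ).sv_of hs, ind_of hP, if_pos ⟨hs, hP⟩]
        simp
      · rw [ind_not hP, if_neg (fun h => hP h.2)]
        simp
    · rw [(lat m hμ).sv_of_not hs, if_neg (fun h => hs h.1)]
      simp
  · intro w _ w' _ h
    have := pl_inj (lat m hμ) (stv_injective m) (by simp) (by simp) h
    exact List.ofFn_injective this

theorem c_eq (n : ℕ) : (c (m + 2) n : ℝ) / μ ^ n = (lat m hμ).a n := by
  have h := E_card (m := m) hμ n fun _ => True
  simp only [and_true, Set.ofPred_mem_eq] at h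
  unfold c
  rw [← h]
  show _ = (lat m hμ).E n (lat m hμ).sv
  refine Sys.E_congr _ fun w _ => ?_
  rw [ind_of trivial, mul_one]

/-- occurrences of patterns in words and in paths -/
theorem occ0_eq {k n : ℕ} {γ : Fin (k + 1) → (Fin (m + 2) → ℤ)} {γl l : List (St m)}
    (hγl : γl.length = k) (hl : l.length = n)
    (hγ : ∀ j : Fin (k + 1), γ j - γ 0 = (lat m hμ).sm (γl.take j)) :
    occ0 γ (pl (lat m hμ) n l) = cnt γl l := by
  rw [cnt_ncard]
  unfold occ0
  congr 1
  ext i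
  rw [Set.mem_ofPred_eq, Set.mem_ofPred_eq, pre_iff (lat m hμ) (stv_injective m)]
  constructor
  · rintro ⟨h, hj⟩
    refine ⟨by omega, fun j hj' => ?_⟩
    have h1 := hj ⟨j, by omega⟩
    rw [hγ] at h1
    exact h1
  · rintro ⟨h, hj⟩
    refine ⟨by omega, fun j => ?_⟩
    rw [hγ]
    exact hj j (by omega)

theorem sm_bar_take (γl : List (St m)) (j : ℕ) :
    (lat m hμ).sm ((bar (lat m hμ) γl).take j) =
      (lat m hμ).sm (γl.take (γl.length - j)) - (lat m hμ).sm γl := by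
  have h1 : γl = γl.take (γl.length - j) ++ γl.drop (γl.length - j) :=
    (List.take_append_drop _ _).symm
  have h2 : (bar (lat m hμ) γl).take j = bar (lat m hμ) (γl.drop (γl.length - j)) := by
    unfold bar
    rw [List.take_reverse]
    simp only [List.length_map, List.map_drop]
  rw [h2]
  have h3 : (lat m hμ).sm γl = (lat m hμ).sm (γl.take (γl.length - j)) +
      (lat m hμ).sm (γl.drop (γl.length - j)) := by
    rw [← Sys.sm_append, ← h1]
  rw [(sm_bar (Y := lat m hμ) _).1, h3]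
  abel

theorem n1_stv (s : St m) : n1 (stv m s) = 1 := by
  obtain ⟨i, b⟩ := s
  unfold n1
  rw [Finset.sum_eq_single i]
  · cases b <;> simp [stv]
  · intro j _ hj
    cases b <;> simp [stv, hj]
  · simp

theorem lat_lt : Lt (lat m hμ) := by
  refine ⟨n1_stv, ?_⟩
  have key : ∀ n : ℕ, ∀ x : Zk (m + 2), n1 x = n →
      ∃ w : List (St m), (lat m hμ).sm w = x ∧ w.length = n := by
    intro n
    induction n with
    | zero =>
      intro x hx
      refine ⟨[], ?_, rfl⟩
      funext i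
      unfold n1 at hx
      rw [Finset.sum_eq_zero_iff] at hx
      have h := hx i (Finset.mem_univ i)
      rw [Int.natAbs_eq_zero] at h
      rw [h]
      rfl
    | succ n ih =>
      intro x hx
      obtain ⟨i, hi⟩ : ∃ i, x i ≠ 0 := by
        by_contra hcon
        push Not at hcon
        rw [show x = 0 from funext hcon] at hx
        simp [n1] at hx
      obtain ⟨s, hs⟩ : ∃ s : St m, n1 (x - stv m s) = n := by
        rcases lt_or_gt_of_ne hi with h | h
        · refine ⟨(i, false), ?_⟩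
          unfold n1 at hx ⊢
          rw [← Finset.add_sum_erase _ _ (Finset.mem_univ i)] at hx ⊢
          have h1 : ∑ j ∈ Finset.univ.erase i, ((x - stv m (i, false)) j).natAbs =
              ∑ j ∈ Finset.univ.erase i, (x j).natAbs := by
            refine Finset.sum_congr rfl fun j hj => ?_
            rw [Finset.mem_erase] at hj
            simp [stv, hj.1]
          rw [h1]
          have h2 : ((x - stv m (i, false)) i).natAbs + 1 = (x i).natAbs := by
            simp [stv]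
            omega
          omega
        · refine ⟨(i, true), ?_⟩
          unfold n1 at hx ⊢
          rw [← Finset.add_sum_erase _ _ (Finset.mem_univ i)] at hx ⊢
          have h1 : ∑ j ∈ Finset.univ.erase i, ((x - stv m (i, true)) j).natAbs =
              ∑ j ∈ Finset.univ.erase i, (x j).natAbs := by
            refine Finset.sum_congr rfl fun j hj => ?_
            rw [Finset.mem_erase] at hj
            simp [stv, hj.1]
          rw [h1]
          have h2 : ((x - stv m (i, true)) i).natAbs + 1 = (x i).natAbs := by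
            simp [stv]
            omega
          omega
      obtain ⟨w, hw, hl⟩ := ih _ hs
      refine ⟨s :: w, ?_, by simp [hl]⟩
      rw [Sys.sm_cons, hw]
      show stv m s + (x - stv m s) = x
      abel
  intro x
  exact key _ x rfl

theorem SAW_finite (k : ℕ) : (SAW (m + 2) k).Finite := by
  have hμ : (0 : ℝ) < 1 := one_pos
  refine (Set.finite_range fun w : Fin k → St m => pl (lat m hμ) k (List.ofFn w)).subset ?_
  intro ω hω
  obtain ⟨l, hl, -, hl'⟩ := pl_surj hμ hω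
  subst hl
  refine ⟨l.get, ?_⟩
  simp only [List.ofFn_get]
  exact hl'

/-- occurrences of patterns in blocks of words and of paths -/
theorem occ_blk {k n L i : ℕ} {γ : Fin (k + 1) → (Fin (m + 2) → ℤ)} {γl l : List (St m)}
    (hγl : γl.length = k) (hl : l.length = n) (hi : i + L ≤ n)
    (hγ : ∀ j : Fin (k + 1), γ j - γ 0 = (lat m hμ).sm (γl.take j)) :
    occ γ (pl (lat m hμ) n l) i L = cnt γl ((l.drop i).take L) := by
  rw [cnt_ncard]
  unfold occ
  have hlen : ((l.drop i).take L).length = L := by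
    rw [List.length_take, List.length_drop]
    omega
  have key : ∀ r ≤ L, (lat m hμ).sm (((l.drop i).take L).take r) =
      (lat m hμ).sm (l.take (i + r)) - (lat m hμ).sm (l.take i) := by
    intro r hr
    rw [List.take_take, min_eq_left hr, List.take_add, Sys.sm_append, add_sub_cancel_left]
  have hset : {a : ℕ | i ≤ a ∧ a + k ≤ i + L ∧ ∃ h : a + k ≤ n, ∀ j : Fin (k + 1),
      pl (lat m hμ) n l ⟨a + j, by omega⟩ - pl (lat m hμ) n l ⟨a, by omega⟩ = γ j - γ 0} =
      (fun a => i + a) '' {a : ℕ | a ≤ ((l.drop i).take L).length ∧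
        γl <+: ((l.drop i).take L).drop a} := by
    ext a
    rw [Set.mem_ofPred_eq, Set.mem_image]
    constructor
    · rintro ⟨h1, h2, h3, h4⟩
      obtain ⟨b, rfl⟩ := Nat.exists_eq_add_of_le h1
      refine ⟨b, ?_, rfl⟩
      rw [Set.mem_ofPred_eq, pre_iff (lat m hμ) (stv_injective m), hlen]
      refine ⟨by omega, fun j hj => ?_⟩
      rw [key _ (by omega), key _ (by omega)]
      have h5 := h4 ⟨j, by omega⟩
      rw [hγ] at h5
      have h6 : (lat m hμ).sm (l.take (i + b + j)) - (lat m hμ).sm (l.take (i + b)) =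
          (lat m hμ).sm (γl.take j) := h5
      rw [← h6, ← Nat.add_assoc]
      abel
    · rintro ⟨b, hb, rfl⟩
      rw [Set.mem_ofPred_eq, pre_iff (lat m hμ) (stv_injective m), hlen] at hb
      obtain ⟨h1, h2⟩ := hb
      refine ⟨by omega, by omega, by omega, fun j => ?_⟩
      rw [hγ]
      have h3 := h2 j (by omega)
      rw [key _ (by omega), key _ (by omega)] at h3
      rw [← h3]
      show (lat m hμ).sm (l.take (i + b + j)) - (lat m hμ).sm (l.take (i + b)) = _
      rw [← Nat.add_assoc]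
      abel
  rw [hset, Set.ncard_image_of_injective _ (add_right_injective i)]

/-- **Every phase is an arrow, in the words of this file.** -/
theorem bulk (m : ℕ) (hd4 : m + 2 ≤ 4) {μ : ℝ} (hμ : 0 < μ)
    (hlim : Tendsto (fun n : ℕ => (c (m + 2) n : ℝ) ^ (1 / (n : ℝ))) atTop (nhds μ)) {A : ℝ}
    (hA : ∀ n : ℕ, (c (m + 2) n : ℝ) ≤ A * μ ^ n) {ε : ℝ} (hε : 0 < ε) :
    ∃ (k : ℕ) (δ : ℝ), 0 < δ ∧ ∃ L₀ : ℕ, ∀ L ≥ L₀, ∀ᶠ n : ℕ in atTop, ({p : (Fin (n + 1) → (Fin (m + 2) → ℤ)) × ℕ | p.1 ∈ SAW (m + 2) n ∧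
        p.2 + L ≤ n ∧ ∀ γ ∈ SAW (m + 2) k,
          |(occ γ p.1 p.2 L : ℝ) - occ (rev γ) p.1 p.2 L| < δ * L}.ncard : ℝ) ≤
            ε * (n * c (m + 2) n) := by
  classical
  obtain ⟨μ', hμ', h1, -, h3⟩ := Pool.Agent.Bubble.exists_mu m
  have hc : ∀ n, (c (m + 2) n : ℝ) = ((Pool.Agent.SubBall.saws (stv m) n).card : ℝ) := by
    intro n
    have h := c_eq (m := m) hμ' n
    rw [lat_a] at h
    unfold Pool.Agent.Bubble.an at h
    have h4 : μ' ^ n ≠ 0 := (pow_pos hμ' n).ne'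
    field_simp at h
    exact h
  have hμμ : μ = μ' := by
    refine tendsto_nhds_unique hlim (h3.congr fun n => ?_)
    rw [hc]
  subst hμμ
  have h1' : ∀ n, 1 ≤ (lat m hμ).a n := fun n => by rw [lat_a]; exact h1 n
  have ha : ∀ n, (lat m hμ).a n ≤ A := by
    intro n
    rw [← c_eq, div_le_iff₀ (pow_pos hμ n)]
    exact hA n
  obtain ⟨k, δ, hδ, L₀, h2⟩ := Pool.Agent.Esc.blocks_cnt h1' ha
    (fun Λ ρ ε' hb he hs => Pool.Agent.Esc.no_sym (lat m hμ) hd4 (lat_lt hμ) hb h1' ha he hs)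
    (half_pos hε)
  refine ⟨k, δ, hδ, L₀, fun L hL => ?_⟩
  filter_upwards [h2 L hL, eventually_ge_atTop (max L 1)] with n hn hn2
  have hLn : L ≤ n := (le_max_left _ _).trans hn2
  have hn1 : 1 ≤ n := (le_max_right _ _).trans hn2
  set Q : ℕ → (Fin (n + 1) → (Fin (m + 2) → ℤ)) → Prop := fun i ω => ∀ γ ∈ SAW (m + 2) k,
    |(occ γ ω i L : ℝ) - occ (rev γ) ω i L| < δ * L with hQ
  set G : List (St m) → ℝ := fun w => SawM2.ind (∀ γ : List (St m), γ.length = k →
    |(cnt γ w : ℝ) - cnt (bar (lat m hμ) γ) w| ≤ δ * L) with hG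
  have hp : 0 < μ ^ n := pow_pos hμ n
  have hle : ∀ i, i + L ≤ n → ({ω ∈ SAW (m + 2) n | Q i ω}.ncard : ℝ) ≤
      μ ^ n * Pool.Agent.Esc.bW (lat m hμ) n L G i := by
    intro i hi
    rw [← div_le_iff₀' hp, ← E_card hμ n (Q i)]
    refine (lat m hμ).E_mono fun w hw => ?_
    by_cases hs : (lat m hμ).Saw w
    · refine mul_le_mul_of_nonneg_left (ind_mono ?_) ((lat m hμ).sv_nonneg w)
      intro hq γ hγ
      have hinf : ((w.drop i).take L) <:+: w :=
        (List.take_prefix _ _).isInfix.trans (List.drop_suffix _ _).isInfix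
      by_cases hs' : (lat m hμ).Saw γ
      · have h7 := hq (pl (lat m hμ) k γ) (pl_mem hμ hγ hs')
        rw [occ_blk hμ hγ hw hi (fun j => by simp [pl]),
          occ_blk hμ (γl := bar (lat m hμ) γ) (by rw [(sm_bar (Y := lat m hμ) _).2.1, hγ]) hw hi
            (fun j => ?_)] at h7
        · exact h7.le
        · rw [sm_bar_take, hγ]
          have h9 : ((lat m hμ).sm γ) = (lat m hμ).sm (γ.take k) := by
            rw [List.take_of_length_le (by omega)]
          rw [h9]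
          simp [rev, pl, Fin.rev]
      · have h00 : cnt γ ((w.drop i).take L) = 0 := by
          by_contra h0
          refine hs' fun b hb => hs b (hb.trans ((cnt_pos (Nat.pos_of_ne_zero h0)).trans hinf))
        have h00' : cnt (bar (lat m hμ) γ) ((w.drop i).take L) = 0 := by
          by_contra h0
          have hs2 : (lat m hμ).Saw (bar (lat m hμ) γ) := fun b hb =>
            hs b (hb.trans ((cnt_pos (Nat.pos_of_ne_zero h0)).trans hinf))
          have h9 := (sm_bar (Y := lat m hμ) γ).2.2.1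
          rw [(lat m hμ).sv_of hs2, (lat m hμ).sv_of_not hs'] at h9
          norm_num at h9
        rw [h00, h00']
        simp only [Nat.cast_zero, sub_zero, abs_zero]
        positivity
    · rw [(lat m hμ).sv_of_not hs, zero_mul, zero_mul]
  -- the set of pairs
  set T : Set ((Fin (n + 1) → (Fin (m + 2) → ℤ)) × ℕ) :=
    {p | p.1 ∈ SAW (m + 2) n ∧ p.2 + L ≤ n ∧ Q p.2 p.1} with hT
  have hfin : ∀ i, {ω ∈ SAW (m + 2) n | Q i ω}.Finite := fun i =>
    (SAW_finite n).subset (Set.sep_subset _ _)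
  have hsub : T ⊆ (((Finset.range (n - L + 1)).biUnion fun i =>
      ((hfin i).toFinset.image fun ω => (ω, i)) : Finset _) : Set _) := by
    rintro ⟨ω, i⟩ ⟨h4, h5, h6⟩
    rw [Finset.mem_coe, Finset.mem_biUnion]
    simp only at h4 h5 h6
    refine ⟨i, Finset.mem_range.2 (by omega), ?_⟩
    rw [Finset.mem_image]
    exact ⟨ω, (Set.Finite.mem_toFinset _).2 ⟨h4, h6⟩, rfl⟩
  have hcard : (T.ncard : ℝ) ≤ ∑ i ∈ Finset.range (n - L + 1),
      ({ω ∈ SAW (m + 2) n | Q i ω}.ncard : ℝ) := by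
    have h4 : T.ncard ≤ ∑ i ∈ Finset.range (n - L + 1), {ω ∈ SAW (m + 2) n | Q i ω}.ncard := by
      refine (Set.ncard_le_ncard hsub (Finset.finite_toSet _)).trans ?_
      rw [Set.ncard_coe_finset]
      refine Finset.card_biUnion_le.trans (Finset.sum_le_sum fun i _ => ?_)
      refine Finset.card_image_le.trans ?_
      rw [Set.ncard_eq_toFinset_card _ (hfin i)]
    exact_mod_cast h4
  refine hcard.trans ?_
  have h5 : ∑ i ∈ Finset.range (n - L + 1), ({ω ∈ SAW (m + 2) n | Q i ω}.ncard : ℝ) ≤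
      μ ^ n * ∑ i ∈ Finset.range (n - L + 1), Pool.Agent.Esc.bW (lat m hμ) n L G i := by
    rw [Finset.mul_sum]
    exact Finset.sum_le_sum fun i hi => hle i (by rw [Finset.mem_range] at hi; omega)
  refine h5.trans ?_
  have ha0 : 0 < (lat m hμ).a n := lt_of_lt_of_le one_pos (h1' n)
  have hnr : (0 : ℝ) < (n : ℝ) + 1 := by positivity
  have h6 : ∑ i ∈ Finset.range (n - L + 1), Pool.Agent.Esc.bW (lat m hμ) n L G i =
      (lat m hμ).a n * (((n : ℝ) + 1) * Pool.Agent.Esc.bA (lat m hμ) n L G) := by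
    unfold Pool.Agent.Esc.bA
    rw [← mul_assoc ((n : ℝ) + 1), mul_inv_cancel₀ hnr.ne', one_mul, Finset.mul_sum]
    refine Finset.sum_congr rfl fun i _ => ?_
    rw [mul_div_cancel₀ _ ha0.ne']
  rw [h6]
  have h7 : μ ^ n * (lat m hμ).a n = c (m + 2) n := by
    rw [← c_eq hμ n]
    field_simp
  have h8 : (0 : ℝ) ≤ c (m + 2) n := Nat.cast_nonneg _
  have h9 : (1 : ℝ) ≤ n := by exact_mod_cast hn1
  calc μ ^ n * ((lat m hμ).a n * (((n : ℝ) + 1) * Pool.Agent.Esc.bA (lat m hμ) n L G))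
      = c (m + 2) n * (((n : ℝ) + 1) * Pool.Agent.Esc.bA (lat m hμ) n L G) := by
        rw [← h7]; ring
    _ ≤ c (m + 2) n * (((n : ℝ) + 1) * (ε / 2)) :=
        mul_le_mul_of_nonneg_left (mul_le_mul_of_nonneg_left hn hnr.le) h8
    _ ≤ ε * (n * c (m + 2) n) := by nlinarith [mul_nonneg h8 hε.le]

/-- time reversal is broken, in words -/
theorem not_noarr (m : ℕ) (hd4 : m + 2 ≤ 4) {μ : ℝ} (hμ : 0 < μ)
    (h1 : ∀ n, 1 ≤ (lat m hμ).a n) {A : ℝ} (ha : ∀ n, (lat m hμ).a n ≤ A) :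
    ¬ NoArr (lat m hμ) := by
  classical
  intro hA
  obtain ⟨k, δ, hδ, L₀, h2⟩ := Pool.Agent.Esc.blocks_cnt h1 ha
    (fun Λ ρ ε' hb he hs => Pool.Agent.Esc.no_sym (lat m hμ) hd4 (lat_lt hμ) hb h1 ha he hs)
    (one_half_pos (α := ℝ))
  have hA1 : 1 ≤ A := (h1 0).trans (ha 0)
  set δ' : ℝ := min δ (1 / (4 * A ^ 2)) with hδ'
  have hδ'0 : 0 < δ' := lt_min hδ (by positivity)
  obtain ⟨L, hL, h3⟩ := hA k δ' hδ'0 L₀
  have h4 := Pool.Agent.Esc.share_of_blocks h1 ha (fun _ => ind_le_one _) (h2 L hL)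
  have h5 : ((lat m hμ).E L fun w => (lat m hμ).sv w * (1 - SawM2.ind (∀ γ : List (St m),
      γ.length = k → |(cnt γ w : ℝ) - cnt (bar (lat m hμ) γ) w| ≤ δ * L))) ≤
      (lat m hμ).E L fun w => (lat m hμ).sv w * ind (∃ γ : List (St m), γ.length = k ∧
        δ' * L ≤ |(cnt γ w : ℝ) - cnt (bar (lat m hμ) γ) w|) := by
    refine (lat m hμ).E_mono fun w _ => mul_le_mul_of_nonneg_left ?_ ((lat m hμ).sv_nonneg w)
    by_cases hq : ∀ γ : List (St m), γ.length = k →
        |(cnt γ w : ℝ) - cnt (bar (lat m hμ) γ) w| ≤ δ * L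
    · rw [ind_of hq, sub_self]
      exact ind_nonneg _
    · have hq' := hq
      push Not at hq'
      obtain ⟨γ, hγ, hd⟩ := hq'
      have h6 : δ' * L ≤ δ * L :=
        mul_le_mul_of_nonneg_right (min_le_left _ _) (Nat.cast_nonneg _)
      have h7 : (∃ γ : List (St m), γ.length = k ∧
          δ' * L ≤ |(cnt γ w : ℝ) - cnt (bar (lat m hμ) γ) w|) := ⟨γ, hγ, h6.trans hd.le⟩
      rw [ind_not hq, ind_of h7, sub_zero]
  have h6 : 1 - 1 / 2 ≤ A ^ 2 * δ' :=
    h4.trans (mul_le_mul_of_nonneg_left (h5.trans h3) (by positivity))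
  have h7 : A ^ 2 * δ' ≤ A ^ 2 * (1 / (4 * A ^ 2)) :=
    mul_le_mul_of_nonneg_left (min_le_right _ _) (by positivity)
  have h8 : A ^ 2 * (1 / (4 * A ^ 2)) = 1 / 4 := by
    have : A ≠ 0 := by linarith
    field_simp
  linarith

/-- words and paths: the excess of a pattern -/
theorem excess_pl {k n : ℕ} {γl w : List (St m)} (hγl : γl.length = k) (hw : w.length = n) :
    (occ (pl (lat m hμ) k γl) (pl (lat m hμ) n w) 0 n : ℝ) -
      occ (rev (pl (lat m hμ) k γl)) (pl (lat m hμ) n w) 0 n =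
      Pool.Agent.Trp.Xg (lat m hμ) γl w := by
  rw [occ_zero, occ_zero, occ0_eq hμ hγl hw (fun j => by simp [pl]),
    occ0_eq hμ (γl := bar (lat m hμ) γl) (by rw [(sm_bar (Y := lat m hμ) _).2.1, hγl]) hw
      (fun j => ?_)]
  · rfl
  · rw [sm_bar_take, hγl]
    have h9 : ((lat m hμ).sm γl) = (lat m hμ).sm (γl.take k) := by
      rw [List.take_of_length_le (by omega)]
    rw [h9]
    simp [rev, pl, Fin.rev]

/-- the weight of an arrow, as a number of walks -/
theorem am_card {k : ℕ} {γl : List (St m)} (hγl : γl.length = k) (t : ℝ) (n : ℕ) :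
    Pool.Agent.Am3.am (lat m hμ) γl t n =
      ({ω ∈ SAW (m + 2) n | t * n ≤ (occ (pl (lat m hμ) k γl) ω 0 n : ℝ) -
        occ (rev (pl (lat m hμ) k γl)) ω 0 n}.ncard : ℝ) / μ ^ n := by
  rw [← E_card hμ n (fun ω => t * n ≤ (occ (pl (lat m hμ) k γl) ω 0 n : ℝ) -
        occ (rev (pl (lat m hμ) k γl)) ω 0 n)]
  unfold Pool.Agent.Am3.am
  refine Sys.E_congr _ fun w hw => ?_
  rw [excess_pl hμ hγl hw]

/-- the weight of the reversed arrow, as a number of walks -/
theorem am_card' {k : ℕ} {γl : List (St m)} (hγl : γl.length = k) (t : ℝ) (n : ℕ) :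
    Pool.Agent.Am3.am (lat m hμ) γl t n =
      ({ω ∈ SAW (m + 2) n | t * n ≤ (occ (rev (pl (lat m hμ) k γl)) ω 0 n : ℝ) -
        occ (pl (lat m hμ) k γl) ω 0 n}.ncard : ℝ) / μ ^ n := by
  rw [← E_card hμ n (fun ω => t * n ≤ (occ (rev (pl (lat m hμ) k γl)) ω 0 n : ℝ) -
        occ (pl (lat m hμ) k γl) ω 0 n), ← Pool.Agent.Am3.am_bar]
  refine Sys.E_congr _ fun w hw => ?_
  rw [← excess_pl hμ hγl hw]
  congr 1
  apply congrArg
  rw [eq_iff_iff]
  constructor <;> intro h <;> linarith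

/-- **Full mass of both arrows, in the words of this file.** -/
theorem arrows (m : ℕ) (hd4 : m + 2 ≤ 4) {μ : ℝ} (hμ : 0 < μ)
    (h1 : ∀ n, 1 ≤ (lat m hμ).a n) {A : ℝ} (ha : ∀ n, (lat m hμ).a n ≤ A) :
    ∃ (γl : List (St m)) (t : ℝ), (lat m hμ).Saw γl ∧ 0 < t ∧ ∀ θ : ℝ, 0 < θ →
      ∀ᶠ n : ℕ in atTop, 1 - θ ≤ Pool.Agent.Am3.am (lat m hμ) γl t n := by
  classical
  obtain ⟨γl, δ, hδ, κ, hκ, h2⟩ := Pool.Agent.Am3.arr_freq _ (not_noarr m hd4 hμ h1 ha)
  obtain ⟨t, ht, h3⟩ := Pool.Agent.Am3.arr_one _ h1 ha γl hδ hκ h2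
  refine ⟨γl, t, ?_, ht, h3⟩
  obtain ⟨n, hn, hn1⟩ := ((h3 (1 / 2) (by norm_num)).and (eventually_ge_atTop 1)).exists
  by_contra hs
  have h4 : Pool.Agent.Am3.am (lat m hμ) γl t n ≤ 0 := by
    have h5 : Pool.Agent.Am3.am (lat m hμ) γl t n ≤ (lat m hμ).E n fun _ => 0 := by
      refine (lat m hμ).E_mono fun w hw => ?_
      by_cases hw' : (lat m hμ).Saw w
      · rw [ind_not, mul_zero]
        intro h6
        have hnr : (0 : ℝ) < n := by exact_mod_cast hn1
        have h7 : 0 < cnt γl w := by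
          by_contra h0
          have h00 : cnt γl w = 0 := by omega
          unfold Pool.Agent.Trp.Xg at h6
          rw [h00] at h6
          have h8 : (0 : ℝ) ≤ cnt (bar (lat m hμ) γl) w := Nat.cast_nonneg _
          have h9 := mul_pos ht hnr
          push_cast at h6
          linarith
        exact hs fun b hb => hw' b (hb.trans (cnt_pos h7))
      · rw [(lat m hμ).sv_of_not hw', zero_mul]
    refine h5.trans ?_
    rw [(lat m hμ).E_eq]
    simp
  linarith

/-- words with an arrow are walks which are not neutral -/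
theorem ty_le {k n : ℕ} {t : ℝ} (ht : 0 < t) (hn : 1 ≤ n) :
    Pool.Agent.Am3.ty (lat m hμ) k t n ≤
      ({ω ∈ SAW (m + 2) n | ¬ Neutral k t ω 0 n}.ncard : ℝ) / μ ^ n := by
  classical
  rw [← E_card hμ n (fun ω => ¬ Neutral k t ω 0 n)]
  refine (lat m hμ).E_mono fun w hw => ?_
  by_cases hs : (lat m hμ).Saw w
  swap
  · rw [(lat m hμ).sv_of_not hs, zero_mul, zero_mul]
  refine mul_le_mul_of_nonneg_left (ind_mono ?_) ((lat m hμ).sv_nonneg w)
  rintro ⟨γl, hγl, hd⟩ hN
  have hnr : (0 : ℝ) < n := by exact_mod_cast hn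
  have hx : 0 < |Pool.Agent.Trp.Xg (lat m hμ) γl w| := lt_of_lt_of_le (mul_pos ht hnr) hd
  have hs' : (lat m hμ).Saw γl := by
    by_cases h0 : 0 < cnt γl w
    · exact fun b hb => hs b (hb.trans (cnt_pos h0))
    · have h00 : cnt γl w = 0 := by omega
      by_cases h0' : 0 < cnt (bar (lat m hμ) γl) w
      · have hs2 : (lat m hμ).Saw (bar (lat m hμ) γl) := fun b hb =>
          hs b (hb.trans (cnt_pos h0'))
        have h9 := (sm_bar (Y := lat m hμ) γl).2.2.1
        rw [(lat m hμ).sv_of hs2] at h9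
        by_contra hc'
        rw [(lat m hμ).sv_of_not hc'] at h9
        norm_num at h9
      · have h00' : cnt (bar (lat m hμ) γl) w = 0 := by omega
        unfold Pool.Agent.Trp.Xg at hx
        rw [h00, h00'] at hx
        simp at hx
  have h7 := hN (pl (lat m hμ) k γl) (pl_mem hμ hγl hs')
  rw [excess_pl hμ hγl hw] at h7
  linarith

/-- both arrows together -/
theorem ty_two (γl : List (St m)) {t : ℝ} (ht : 0 < t) {n : ℕ} (hn : 1 ≤ n) :
    Pool.Agent.Am3.am (lat m hμ) γl t n + Pool.Agent.Am3.am (lat m hμ) γl t n ≤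
      Pool.Agent.Am3.ty (lat m hμ) γl.length t n := by
  have h1 : Pool.Agent.Am3.am (lat m hμ) γl t n + Pool.Agent.Am3.am (lat m hμ) γl t n =
      (lat m hμ).E n fun w => (lat m hμ).sv w * ind (t * n ≤ Pool.Agent.Trp.Xg (lat m hμ) γl w) +
        (lat m hμ).sv w * ind (Pool.Agent.Trp.Xg (lat m hμ) γl w ≤ -(t * n)) := by
    rw [(lat m hμ).E_fadd, Pool.Agent.Am3.am_bar]
    rfl
  rw [h1]
  refine (lat m hμ).E_mono fun w hw => ?_
  rw [← mul_add]
  refine mul_le_mul_of_nonneg_left ?_ ((lat m hμ).sv_nonneg w)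
  have hp : 0 < t * n := mul_pos ht (by exact_mod_cast hn)
  by_cases h2 : t * n ≤ Pool.Agent.Trp.Xg (lat m hμ) γl w
  · have h3 : ¬ Pool.Agent.Trp.Xg (lat m hμ) γl w ≤ -(t * n) := by
      intro h3
      linarith
    have h4 : ∃ γ : List (St m), γ.length = γl.length ∧
        t * n ≤ |Pool.Agent.Trp.Xg (lat m hμ) γ w| := ⟨γl, rfl, h2.trans (le_abs_self _)⟩
    rw [ind_of h2, ind_not h3, ind_of h4, add_zero]
  · rw [ind_not h2, zero_add]
    refine ind_mono fun h3 => ⟨γl, rfl, ?_⟩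
    have h4 := neg_abs_le (Pool.Agent.Trp.Xg (lat m hμ) γl w)
    have h5 := abs_le'.1 (le_refl |Pool.Agent.Trp.Xg (lat m hμ) γl w|)
    linarith [h5.2]

/-- **All arrows together.** -/
theorem typed (m : ℕ) (hd4 : m + 2 ≤ 4) {μ : ℝ} (hμ : 0 < μ)
    (h1 : ∀ n, 1 ≤ (lat m hμ).a n) {A : ℝ} (ha : ∀ n, (lat m hμ).a n ≤ A) :
    ∃ (k : ℕ) (t : ℝ), 0 < t ∧
      ∀ x : ℝ, (x < 2 ∨ m + 2 = 3 ∧ x < 12 / μ ∨ m + 2 = 4 ∧ x < 16 / μ) →
        ∀ᶠ n : ℕ in atTop, x ≤ Pool.Agent.Am3.ty (lat m hμ) k t n := by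
  have hno := not_noarr m hd4 hμ h1 ha
  have hle := Pool.Agent.Am3.mu_le hμ h1
  rcases (show m = 0 ∨ m = 1 ∨ m = 2 by omega) with rfl | rfl | rfl
  · obtain ⟨γl, t, -, ht, h4⟩ := arrows 0 hd4 hμ h1 ha
    refine ⟨γl.length, t, ht, fun x hx => ?_⟩
    have hx2 : x < 2 := by
      rcases hx with h | ⟨h, -⟩ | ⟨h, -⟩
      · exact h
      · omega
      · omega
    filter_upwards [h4 ((2 - x) / 2) (by linarith), eventually_ge_atTop 1] with n hn hn1
    have h5 := ty_two hμ γl ht hn1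
    linarith
  · obtain ⟨k, t, ht, h4⟩ := Pool.Agent.Am3.arrows_mu hμ h1 ha hno
    refine ⟨k, t, ht, fun x hx => ?_⟩
    have h12 : 0 < 12 / μ := by positivity
    have hx2 : x < 12 / μ := by
      rcases hx with h | ⟨-, h⟩ | ⟨h, -⟩
      · refine h.trans_le ?_
        rw [le_div_iff₀ hμ]
        push_cast at hle
        linarith
      · exact h
      · omega
    filter_upwards [h4 ((12 / μ - x) / (12 / μ)) (div_pos (by linarith) h12)] with n hn
    refine le_trans (le_of_eq ?_) hn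
    rw [mul_sub, mul_one, mul_div_cancel₀ _ h12.ne', sub_sub_cancel]
  · obtain ⟨k, t, ht, h4⟩ := Pool.Agent.Am3.arrows4_mu hμ h1 ha hno
    refine ⟨k, t, ht, fun x hx => ?_⟩
    have h12 : 0 < 16 / μ := by positivity
    have hx2 : x < 16 / μ := by
      rcases hx with h | ⟨h, -⟩ | ⟨-, h⟩
      · refine h.trans_le ?_
        rw [le_div_iff₀ hμ]
        push_cast at hle
        linarith
      · omega
      · exact h
    filter_upwards [h4 ((16 / μ - x) / (16 / μ)) (div_pos (by linarith) h12)] with n hn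
    refine le_trans (le_of_eq ?_) hn
    rw [mul_sub, mul_one, mul_div_cancel₀ _ h12.ne', sub_sub_cancel]

/-- a neutral word is a neutral walk -/
theorem nm_le {k n : ℕ} {δ : ℝ} (hδ : 0 < δ) (hn : 1 ≤ n) :
    Pool.Agent.Trp.nm (lat m hμ) k (δ / 2) n ≤
      ({ω ∈ SAW (m + 2) n | Neutral k δ ω 0 n}.ncard : ℝ) / μ ^ n := by
  rw [← E_card hμ n (fun ω => Neutral k δ ω 0 n)]
  refine (lat m hμ).E_mono fun w hw => ?_
  refine mul_le_mul_of_nonneg_left (ind_mono ?_) ((lat m hμ).sv_nonneg w)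
  intro hN γ hγ
  obtain ⟨γl, hγl, -, rfl⟩ := pl_surj hμ hγ
  have hnr : (0 : ℝ) < n := by exact_mod_cast hn
  rw [excess_pl hμ hγl hw]
  have h7 := hN γl hγl
  rw [hw] at h7
  refine lt_of_le_of_lt h7 (mul_lt_mul_of_pos_right (half_lt_self hδ) hnr)

/-- the good lengths below `N`, in words and in walks -/
theorem good_card (x : ℝ) (N : ℕ) :
    (({n : ℕ | n < N ∧ x * μ ^ n ≤ c (m + 2) n}.ncard : ℕ) : ℝ) =
      open Classical in (((Finset.range N).filter fun n => x ≤ (lat m hμ).a n).card : ℝ) := by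
  classical
  rw [Nat.cast_inj, ← Set.ncard_coe_finset]
  congr 1
  ext n
  rw [Set.mem_ofPred_eq, Finset.mem_coe, Finset.mem_filter, Finset.mem_range, ← c_eq,
    le_div_iff₀ (pow_pos hμ n)]

/-- **Main result.** Let `d = 2, 3` or `4`, let `μ` be the limit of `c d n ^ (1 / n)` (it is at most
`2 * d - 1`), and let `C = 2, 18 / μ, 16 / μ` for `d = 2, 3, 4`. For every `x < C` the set of the `n`
with `c d n ≥ x * μ ^ n` has upper density 1: for every `η > 0` there are infinitely many `N` such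
that at least `(1 - η) * N` of the `n < N` are in it. Moreover, if `c d n ≤ A * μ ^ n` for all `n`:
(i) there are `k` and `δ > 0` such that, for every `x < 2` (`x < 12 / μ` if `d = 3`, `x < 16 / μ` if
`d = 4`) and all large `n`, at least `x * μ ^ n` self-avoiding walks of length `n` are not neutral;
(ii) there are `k`, `γ ∈ SAW d k` and `t > 0` such that, for every `ε > 0` and all large `n`, at least
`(1 - ε) * μ ^ n` self-avoiding walks of length `n` run through `γ` at least `t * n` times more often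
than through `rev γ`, and at least `(1 - ε) * μ ^ n` of them run through `rev γ` at least `t * n`
times more often than through `γ`;
(iii) for every `ε > 0` there are `k`, `δ > 0` and `L₀` such that, for every `L ≥ L₀` and all large
`n`, at most `ε * n * c d n` pairs of a self-avoiding walk of length `n` and a block of `L` of its
steps have a neutral block;
(iv) if `d = 3` then for all `k`, `δ > 0`, `ε > 0` and all large `J`, all but at most `ε * J` of the
numbers `j < J` are such that, for every `n` with `2 ^ j ≤ n < 2 ^ (j + 1)`, at least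
`(6 / μ - ε) * μ ^ n` self-avoiding walks of length `n` are neutral. -/
theorem result (d : ℕ) (hd : 2 ≤ d) (hd4 : d ≤ 4) : ∃ μ : ℝ, 0 < μ ∧ μ ≤ 2 * d - 1 ∧
    Tendsto (fun n : ℕ => (c d n : ℝ) ^ (1 / (n : ℝ))) atTop (nhds μ) ∧
    (∀ x : ℝ, (x < 2 ∨ d = 3 ∧ x < 18 / μ ∨ d = 4 ∧ x < 16 / μ) → ∀ η : ℝ, 0 < η →
      ∃ᶠ N : ℕ in atTop, (1 - η) * N ≤ ({n : ℕ | n < N ∧ x * μ ^ n ≤ c d n}.ncard : ℝ)) ∧
    ∀ A : ℝ, (∀ n : ℕ, (c d n : ℝ) ≤ A * μ ^ n) →
      (∃ (k : ℕ) (δ : ℝ), 0 < δ ∧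
        ∀ x : ℝ, (x < 2 ∨ d = 3 ∧ x < 12 / μ ∨ d = 4 ∧ x < 16 / μ) → ∀ᶠ n : ℕ in atTop,
          x * μ ^ n ≤ ({ω ∈ SAW d n | ¬ Neutral k δ ω 0 n}.ncard : ℝ)) ∧
      (∃ k : ℕ, ∃ γ ∈ SAW d k, ∃ t : ℝ, 0 < t ∧ ∀ ε : ℝ, 0 < ε → ∀ᶠ n : ℕ in atTop,
        (1 - ε) * μ ^ n ≤
          ({ω ∈ SAW d n | t * n ≤ (occ γ ω 0 n : ℝ) - occ (rev γ) ω 0 n}.ncard : ℝ) ∧
        (1 - ε) * μ ^ n ≤
          ({ω ∈ SAW d n | t * n ≤ (occ (rev γ) ω 0 n : ℝ) - occ γ ω 0 n}.ncard : ℝ)) ∧
      (∀ ε : ℝ, 0 < ε → ∃ (k : ℕ) (δ : ℝ), 0 < δ ∧ ∃ L₀ : ℕ, ∀ L ≥ L₀, ∀ᶠ n : ℕ in atTop,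
        ({p : (Fin (n + 1) → (Fin d → ℤ)) × ℕ | p.1 ∈ SAW d n ∧
          p.2 + L ≤ n ∧ Neutral k δ p.1 p.2 L}.ncard : ℝ) ≤ ε * (n * c d n)) ∧
      (d = 3 → ∀ (k : ℕ) (δ ε : ℝ), 0 < δ → 0 < ε → ∀ᶠ J : ℕ in atTop,
        ({j : ℕ | j < J ∧ ∃ n : ℕ, 2 ^ j ≤ n ∧ n < 2 ^ (j + 1) ∧
          ({ω ∈ SAW d n | Neutral k δ ω 0 n}.ncard : ℝ) <
            (6 / μ - ε) * μ ^ n}.ncard : ℝ) ≤ ε * J) := by
  classical
  obtain ⟨m, rfl⟩ : ∃ m, d = m + 2 := ⟨d - 2, by omega⟩
  obtain ⟨μ, hμ, h1, -, h3⟩ := Pool.Agent.Bubble.exists_mu m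
  have hc : ∀ n, (c (m + 2) n : ℝ) = ((Pool.Agent.SubBall.saws (stv m) n).card : ℝ) := by
    intro n
    have h := c_eq (m := m) hμ n
    rw [lat_a] at h
    unfold Pool.Agent.Bubble.an at h
    have h4 : μ ^ n ≠ 0 := (pow_pos hμ n).ne'
    field_simp at h
    exact h
  have hlim : Tendsto (fun n : ℕ => (c (m + 2) n : ℝ) ^ (1 / (n : ℝ))) atTop (nhds μ) :=
    h3.congr fun n => by rw [hc]
  have h1' : ∀ n, 1 ≤ (lat m hμ).a n := fun n => by rw [lat_a]; exact h1 n
  have hle : ∀ {A : ℝ}, (∀ n : ℕ, (c (m + 2) n : ℝ) ≤ A * μ ^ n) → ∀ n, (lat m hμ).a n ≤ A := by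
    intro A hA n
    rw [← c_eq, div_le_iff₀ (pow_pos hμ n)]
    exact hA n
  have hμd := Pool.Agent.Am3.mu_le hμ h1'
  refine ⟨μ, hμ, by push_cast; exact hμd, hlim, ?_,
    fun A hA => ⟨?_, ?_, fun ε hε => bulk m hd4 hμ hlim hA hε, ?_⟩⟩
  · -- the amplitude
    intro x hx η hη
    have hty := fun K (hK : ∀ n, (lat m hμ).a n ≤ K) => typed m hd4 hμ h1' hK
    have key : ∃ᶠ N : ℕ in atTop, (1 - η) * N ≤
        (((Finset.range N).filter fun n => x ≤ (lat m hμ).a n).card : ℝ) := by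
      by_cases hm : m + 2 = 3
      · obtain rfl : m = 1 := by omega
        have h18 : 18 / μ = 12 / μ + 6 / μ := by ring
        have hx2 : x < 12 / μ + 6 / μ := by
          rcases hx with h | ⟨-, h⟩ | ⟨h, -⟩
          · rw [← h18]
            refine h.trans_le ?_
            rw [le_div_iff₀ hμ]
            push_cast at hμd
            linarith
          · rwa [← h18]
          · omega
        exact Pool.Agent.Am3.amp_sum (lat 1 hμ) h1' hx2
          (fun K hK => (hty K hK).imp fun k h => h.imp fun t h =>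
            ⟨h.1, fun y hy => h.2 y (Or.inr (Or.inl ⟨hm, hy⟩))⟩)
          (fun K hK k _ _ hδ he => Pool.Agent.Am3.neu_most_mu hμ h1' hK k hδ he) hη
      · rcases hx with h | ⟨h, -⟩ | ⟨h4, h⟩
        · exact Pool.Agent.Am3.amp_ty (lat m hμ) h1' h
            (fun K hK => (hty K hK).imp fun k h => h.imp fun t h =>
              ⟨h.1, fun y hy => h.2 y (Or.inl hy)⟩) hη
        · exact absurd h hm
        · exact Pool.Agent.Am3.amp_ty (lat m hμ) h1' h
            (fun K hK => (hty K hK).imp fun k h => h.imp fun t h =>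
              ⟨h.1, fun y hy => h.2 y (Or.inr (Or.inr ⟨h4, hy⟩))⟩) hη
    refine key.mono fun N hN => ?_
    rw [good_card hμ x N]
    convert hN
  · -- all arrows together
    obtain ⟨k, t, ht, h4⟩ := typed m hd4 hμ h1' (hle hA)
    refine ⟨k, t, ht, fun x hx => ?_⟩
    filter_upwards [h4 x hx, eventually_ge_atTop 1] with n hn hn1
    have hp : 0 < μ ^ n := pow_pos hμ n
    have h5 := hn.trans (ty_le hμ ht hn1)
    rw [le_div_iff₀ hp] at h5
    exact h5
  · -- both arrows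
    obtain ⟨γl, t, hs, ht, h4⟩ := arrows m hd4 hμ h1' (hle hA)
    refine ⟨γl.length, pl (lat m hμ) γl.length γl, pl_mem hμ rfl hs, t, ht, fun ε hε => ?_⟩
    filter_upwards [h4 ε hε] with n hn
    have hp : 0 < μ ^ n := pow_pos hμ n
    constructor
    · rw [am_card hμ rfl, le_div_iff₀ hp] at hn
      exact hn
    · rw [am_card' hμ rfl, le_div_iff₀ hp] at hn
      exact hn
  · intro h3' k δ ε hδ hε
    obtain rfl : m = 1 := by omega
    filter_upwards [Pool.Agent.Am3.neu_most_mu hμ h1' (hle hA) k (half_pos hδ) hε] with J hJ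
    refine le_trans ?_ hJ
    rw [Nat.cast_le, ← Set.ncard_coe_finset]
    refine Set.ncard_le_ncard ?_ (Finset.finite_toSet _)
    rintro j ⟨hj, n, hn1, hn2, hlt⟩
    rw [Finset.mem_coe, Finset.mem_filter, Finset.mem_range]
    refine ⟨hj, n, hn1, hn2, ?_⟩
    have hp : 0 < μ ^ n := pow_pos hμ n
    have hn3 : 1 ≤ n := Nat.one_le_two_pow.trans hn1
    refine lt_of_le_of_lt (nm_le hμ hδ hn3) ?_
    rw [div_lt_iff₀ hp]
    exact hlt

end Pool.Agent.Results.MP_794e6e_pr.TimeArrow
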