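import Pool.Agent.SwR.ExitAll
import Pool.Agent.SwR.FinT
import Pool.Agent.SwT.Fin
import Pool.Agent.SwT.Good
import Pool.Agent.SwP.Paths

/-! An upper bound for the number of self-avoiding walks on `ℤ ^ d`, for every `d ≥ 2`. -/

namespace Pool.Agent.Results.MP_794e6e_pr.TwoSevenths

open Pool.Agent.SwP Pool.Agent.SwX Pool.Agent.SwR Pool.Agent.SwT

/-- **Main result.** Let `d ≥ 2`, let `c n` be the number of `n`-step self-avoiding walks on
`ℤ ^ d` from the origin and `μ` the limit of `c n ^ (1 / n)`. For every `f > 2 / (2 d + 1)` there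
is a constant `C` with `c n ≤ μ ^ n * exp (C * n ^ f)` for all `n ≥ 1`. -/
theorem result (d : ℕ) (hd : 2 ≤ d) (c : ℕ → ℝ)
    (hc : ∀ n : ℕ, c n = (Nat.card {f : Fin (n + 1) → (Fin d → ℤ) //
      f 0 = 0 ∧ Function.Injective f ∧
      ∀ i : Fin n, ∑ j : Fin d, |f i.succ j - f i.castSucc j| = 1} : ℝ)) :
    ∃ μ : ℝ, 0 < μ ∧
      Filter.Tendsto (fun n : ℕ => c n ^ (1 / (n : ℝ))) Filter.atTop (nhds μ) ∧
      ∀ f : ℝ, 2 / (2 * (d : ℝ) + 1) < f → ∃ C : ℝ, ∀ n : ℕ, 1 ≤ n →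
        c n ≤ μ ^ n * Real.exp (C * (n : ℝ) ^ f) := by
  obtain ⟨k, rfl⟩ := Nat.exists_eq_add_of_le' hd
  let _ : Dim := ⟨k⟩
  have hc' : c = fun n => ((walks n).card : ℝ) := by
    funext n
    rw [hc n]
    exact congrArg _ (card_SP n)
  obtain ⟨μ, hμ, h1, h2, h3⟩ := exists_mu
  refine ⟨μ, by linarith, ?_, ?_⟩
  · rw [hc']
    exact h3
  · intro f hf
    have hS : Slab μ (2 / 3) := fun A a ha => star23_of hμ h2 h1 (wbound hμ h2) A ha
    obtain ⟨C, hC⟩ := main_of_slab23 hμ h2 hS hf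
    refine ⟨C, fun n hn => ?_⟩
    rw [hc']
    exact hC n hn

end Pool.Agent.Results.MP_794e6e_pr.TwoSevenths
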